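import Mathlib

/-!
# Project OM (helper19), module K1: truncated Moebius inversion over the subsets of a finite set
-/

set_option autoImplicit false

namespace Pool.Agent.H11.OM

open Finset

variable {α : Type*} [DecidableEq α]

/-- the Moebius transform -/
def mo (F : Finset α → ℝ) (E : Finset α) : ℝ := ∑ T ∈ E.powerset, (-1) ^ (E.card - T.card) * F T

omit [DecidableEq α] in
theorem mo_le {F : Finset α → ℝ} (hF : ∀ E, |F E| ≤ 1) (E : Finset α) : |mo F E| ≤ 2 ^ E.card := by
  unfold mo
  calc |∑ T ∈ E.powerset, (-1 : ℝ) ^ (E.card - T.card) * F T|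
      ≤ ∑ T ∈ E.powerset, |(-1 : ℝ) ^ (E.card - T.card) * F T| := abs_sum_le_sum_abs _ _
    _ ≤ ∑ T ∈ E.powerset, (1 : ℝ) := by
        refine sum_le_sum fun T _ => ?_
        rw [abs_mul, abs_pow, abs_neg, abs_one, one_pow, one_mul]
        exact hF T
    _ = 2 ^ E.card := by
        rw [sum_const, card_powerset, nsmul_eq_mul, mul_one]
        push_cast
        rfl

theorem mo_insert (F : Finset α → ℝ) {a : α} {E : Finset α} (ha : a ∉ E) :
    mo F (insert a E) = mo (fun T => F (insert a T)) E - mo F E := by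
  unfold mo
  have hinj : Set.InjOn (insert a) (E.powerset : Set (Finset α)) := by
    intro S hS T hT h
    rw [mem_coe, mem_powerset] at hS hT
    have hS' : a ∉ S := fun h => ha (hS h)
    have hT' : a ∉ T := fun h => ha (hT h)
    rw [← erase_insert hS', ← erase_insert hT', h]
  have hdisj : Disjoint E.powerset (E.powerset.image (insert a)) := by
    rw [disjoint_left]
    intro T hT hT'
    rw [mem_powerset] at hT
    rw [mem_image] at hT'
    obtain ⟨S, -, rfl⟩ := hT'
    exact ha (hT (mem_insert_self a S))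
  rw [powerset_insert, sum_union hdisj, sum_image hinj, card_insert_of_notMem ha, add_comm]
  have h1 : ∑ T ∈ E.powerset, (-1 : ℝ) ^ (E.card + 1 - T.card) * F T =
      -∑ T ∈ E.powerset, (-1 : ℝ) ^ (E.card - T.card) * F T := by
    rw [← sum_neg_distrib]
    refine sum_congr rfl fun T hT => ?_
    have hc : T.card ≤ E.card := card_le_card (mem_powerset.1 hT)
    rw [show E.card + 1 - T.card = (E.card - T.card) + 1 by omega, pow_succ]
    ring
  have h2 : ∑ T ∈ E.powerset, (-1 : ℝ) ^ (E.card + 1 - (insert a T).card) * F (insert a T) =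
      ∑ T ∈ E.powerset, (-1 : ℝ) ^ (E.card - T.card) * F (insert a T) := by
    refine sum_congr rfl fun T hT => ?_
    have haT : a ∉ T := fun h => ha (mem_powerset.1 hT h)
    rw [card_insert_of_notMem haT, Nat.add_sub_add_right]
  rw [h1, h2]
  ring

/-- Moebius inversion -/
theorem mo_sum (E : Finset α) : ∀ F : Finset α → ℝ, ∑ T ∈ E.powerset, mo F T = F E := by
  induction E using Finset.induction_on with
  | empty =>
    intro F
    rw [powerset_empty, sum_singleton]
    simp [mo]
  | insert a E ha ih =>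
    intro F
    have hinj : Set.InjOn (insert a) (E.powerset : Set (Finset α)) := by
      intro S hS T hT h
      rw [mem_coe, mem_powerset] at hS hT
      have hS' : a ∉ S := fun h => ha (hS h)
      have hT' : a ∉ T := fun h => ha (hT h)
      rw [← erase_insert hS', ← erase_insert hT', h]
    have hdisj : Disjoint E.powerset (E.powerset.image (insert a)) := by
      rw [disjoint_left]
      intro T hT hT'
      rw [mem_powerset] at hT
      rw [mem_image] at hT'
      obtain ⟨S, -, rfl⟩ := hT'
      exact ha (hT (mem_insert_self a S))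
    rw [powerset_insert, sum_union hdisj, sum_image hinj]
    have h1 : ∑ T ∈ E.powerset, mo F (insert a T) =
        ∑ T ∈ E.powerset, (mo (fun T => F (insert a T)) T - mo F T) :=
      sum_congr rfl fun T hT => mo_insert F fun h => ha (mem_powerset.1 hT h)
    rw [h1, sum_sub_distrib, ih, ih]
    ring

theorem choose_le {t R m : ℕ} (hR : R ≤ t) (hm : m ≤ R) :
    t.choose m ≤ t.choose R * R.choose m := by
  rw [Nat.choose_mul hm]
  exact Nat.le_mul_of_pos_right _ (Nat.choose_pos (by omega))

theorem sum_choose_le {t R : ℕ} (hR : R ≤ t) :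
    ∑ m ∈ range (t + 1), (t.choose m : ℝ) * (if m ≤ R then (2 : ℝ) ^ m else 0) ≤
      3 ^ R * (t.choose R : ℝ) := by
  have h3 : ∑ m ∈ range (t + 1), (R.choose m : ℝ) * 2 ^ m = 3 ^ R := by
    have e : ∑ m ∈ range (t + 1), (R.choose m : ℝ) * 2 ^ m =
        ∑ m ∈ range (R + 1), (R.choose m : ℝ) * 2 ^ m := by
      symm
      refine sum_subset (range_subset_range.2 (by omega)) fun m _ hm => ?_
      rw [mem_range, not_lt] at hm
      rw [Nat.choose_eq_zero_of_lt (by omega), Nat.cast_zero, zero_mul]
    rw [e, show (3 : ℝ) = 2 + 1 by norm_num, add_pow]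
    refine sum_congr rfl fun m _ => ?_
    rw [one_pow, mul_one, mul_comm]
  calc ∑ m ∈ range (t + 1), (t.choose m : ℝ) * (if m ≤ R then (2 : ℝ) ^ m else 0)
      ≤ ∑ m ∈ range (t + 1), (t.choose R : ℝ) * ((R.choose m : ℝ) * 2 ^ m) := by
        refine sum_le_sum fun m _ => ?_
        split_ifs with h
        · have h1 : (t.choose m : ℝ) ≤ (t.choose R : ℝ) * (R.choose m : ℝ) := by
            exact_mod_cast choose_le hR h
          rw [← mul_assoc]
          exact mul_le_mul_of_nonneg_right h1 (by positivity)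
        · rw [mul_zero]
          positivity
    _ = (t.choose R : ℝ) * 3 ^ R := by rw [← mul_sum, h3]
    _ = _ := mul_comm _ _

theorem k1a (F : Finset α → ℝ) (R : ℕ) (hF : ∀ E, |F E| ≤ 1) :
    ∃ c : Finset α → ℝ, (∀ E, |c E| ≤ 2 ^ E.card) ∧
      ∀ E : Finset α, |F E - ∑ T ∈ E.powerset with T.card ≤ R, c T| ≤
        if E.card ≤ R then 0 else 2 * 3 ^ R * (E.card.choose R : ℝ) := by
  refine ⟨mo F, mo_le hF, fun E => ?_⟩
  split_ifs with h
  · have : E.powerset.filter (fun T => T.card ≤ R) = E.powerset := by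
      refine filter_true_of_mem fun T hT => ?_
      exact (card_le_card (mem_powerset.1 hT)).trans h
    rw [this, mo_sum, sub_self, abs_zero]
  · push Not at h
    have h1 : |∑ T ∈ E.powerset with T.card ≤ R, mo F T| ≤ 3 ^ R * (E.card.choose R : ℝ) := by
      calc |∑ T ∈ E.powerset with T.card ≤ R, mo F T|
          ≤ ∑ T ∈ E.powerset with T.card ≤ R, |mo F T| := abs_sum_le_sum_abs _ _
        _ ≤ ∑ T ∈ E.powerset with T.card ≤ R, (2 : ℝ) ^ T.card :=
            sum_le_sum fun T _ => mo_le hF T
        _ = ∑ T ∈ E.powerset, (fun m : ℕ => if m ≤ R then (2 : ℝ) ^ m else 0) T.card := by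
            rw [sum_filter]
        _ = ∑ m ∈ range (E.card + 1), (E.card.choose m : ℝ) *
              (if m ≤ R then (2 : ℝ) ^ m else 0) := by
            have e := sum_powerset_apply_card (fun m : ℕ => if m ≤ R then (2 : ℝ) ^ m else 0)
              (x := E)
            refine e.trans (sum_congr rfl fun m _ => ?_)
            rw [nsmul_eq_mul]
        _ ≤ _ := sum_choose_le h.le
    have h2 : (1 : ℝ) ≤ 3 ^ R * (E.card.choose R : ℝ) := by
      have h3 : (1 : ℝ) ≤ (E.card.choose R : ℝ) := by exact_mod_cast Nat.choose_pos h.le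
      exact one_le_mul_of_one_le_of_one_le (one_le_pow₀ (by norm_num)) h3
    calc |F E - ∑ T ∈ E.powerset with T.card ≤ R, mo F T|
        ≤ |F E| + |∑ T ∈ E.powerset with T.card ≤ R, mo F T| := abs_sub _ _
      _ ≤ 1 + 3 ^ R * (E.card.choose R : ℝ) := add_le_add (hF E) h1
      _ ≤ _ := by linarith

end Pool.Agent.H11.OM
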