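import Pool.Agent.H19.OM.Stm3
import Pool.Agent.H11.OM.K1a

/-!
# Project OM (helper19), module K1
-/

set_option autoImplicit false

namespace Pool.Agent.H11.OM

theorem t_K1 : Pool.Agent.H19.OM.S_K1 := fun F R hF => k1a F R hF

end Pool.Agent.H11.OM
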