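import Mathlib
import Pool.Agent.H19.OM.Stm4
import Pool.Agent.H42.OM.Up

set_option autoImplicit false

/-!
# Project OM (helper19), module UPT
-/

namespace Pool.Agent.H11.OM

open Finset Filter Topology Pool.Agent.H19.OM
open scoped NNReal

/-- the tail of the sum of `p ^ (-3/2)` -/
theorem tail32 {a : ℕ} (ha : 1 ≤ a) (b : ℕ) (hab : a ≤ b) :
    ∑ p ∈ Ioc a b, 1 / ((p : ℝ) * Real.sqrt p) ≤ 2 / Real.sqrt a - 2 / Real.sqrt b := by
  induction b, hab using Nat.le_induction with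
  | base => simp
  | succ b hb ih =>
    rw [sum_Ioc_succ_top (by omega)]
    have hb0 : (0 : ℝ) < b := by exact_mod_cast (by omega : 0 < b)
    have h1 : 0 < Real.sqrt b := Real.sqrt_pos.2 hb0
    have h2 : 0 < Real.sqrt ((b + 1 : ℕ) : ℝ) := Real.sqrt_pos.2 (by positivity)
    have h3 : Real.sqrt b ≤ Real.sqrt ((b + 1 : ℕ) : ℝ) := Real.sqrt_le_sqrt (by push_cast; linarith)
    have e1 : Real.sqrt b ^ 2 = b := Real.sq_sqrt hb0.le
    have e2 : Real.sqrt ((b + 1 : ℕ) : ℝ) ^ 2 = ((b + 1 : ℕ) : ℝ) := Real.sq_sqrt (by positivity)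
    have e3 : Real.sqrt ((b + 1 : ℕ) : ℝ) ^ 2 = Real.sqrt b ^ 2 + 1 := by rw [e1, e2]; push_cast; ring
    have key : ∀ u v : ℝ, 0 < u → 0 < v → u ≤ v → v ^ 2 = u ^ 2 + 1 →
        1 / (v ^ 2 * v) ≤ 2 / u - 2 / v := by
      intro u v h1 h2 h3 e3
      rw [div_sub_div _ _ h1.ne' h2.ne', div_le_div_iff₀ (by positivity) (by positivity)]
      have h4 : (v - u) * (v + u) = 1 := by nlinarith
      have h5 : 1 ≤ (v - u) * (2 * v) := by
        have : 0 ≤ (v - u) * (v - u) := mul_self_nonneg _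
        nlinarith
      have h6 : u * v ≤ v ^ 2 := by nlinarith
      have h7 : v ^ 2 * 1 ≤ v ^ 2 * ((v - u) * (2 * v)) :=
        mul_le_mul_of_nonneg_left h5 (sq_nonneg v)
      nlinarith
    have hstep := key _ _ h1 h2 h3 e3
    rw [e2] at hstep
    linarith

/-- the choice of `p₀` -/
theorem p0 (C K D : ℝ) (hC : 1 ≤ C) (hK : 0 ≤ K) (hD : 0 ≤ D) : ∃ p : ℕ, 3 ≤ p ∧
    4 * C * K / Real.sqrt p ≤ 1 / 4 * Real.exp (-(8 * C * (6 * (Real.log (Real.log p) + D) +
      4 * (Real.log (Real.log p) + D) ^ 2))) := by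
  set B : ℝ := 8 * C * (10 * (1 + D) ^ 2) with hB
  have hB0 : 0 < B := by positivity
  have h1 := (Real.isLittleO_pow_log_id_atTop (n := 2)).bound (by positivity : (0 : ℝ) < 1 / (4 * B))
  have h2 : Tendsto (fun u : ℝ => 16 * C * K * Real.exp (-(u / 4))) atTop (𝓝 0) := by
    have h3 : Tendsto (fun u : ℝ => Real.exp (-(u / 4))) atTop (𝓝 0) :=
      Real.tendsto_exp_neg_atTop_nhds_zero.comp (tendsto_id.atTop_div_const (by norm_num))
    simpa using h3.const_mul (16 * C * K)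
  have h4 : Tendsto (fun n : ℕ => Real.log (n : ℝ)) atTop atTop :=
    Real.tendsto_log_atTop.comp tendsto_natCast_atTop_atTop
  obtain ⟨p, ⟨hp1, hp2⟩, hp3, hp4⟩ := (((h4.eventually h1).and (h4.eventually
    (h2.eventually_le_const one_pos))).and ((eventually_ge_atTop 3).and
      (h4.eventually (eventually_ge_atTop (3 : ℝ))))).exists
  refine ⟨p, hp3, ?_⟩
  have hp0 : (0 : ℝ) < p := by exact_mod_cast (by omega : 0 < p)
  have hsq : Real.sqrt p = Real.exp (Real.log p / 2) := by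
    rw [Real.sqrt_eq_rpow, Real.rpow_def_of_pos hp0]
    congr 1
    ring
  rw [hsq]
  generalize Real.log (p : ℝ) = u at *
  have hlog1 : 1 ≤ Real.log u := by
    rw [Real.le_log_iff_exp_le (by linarith)]
    have := Real.exp_one_lt_d9
    linarith
  simp only [id, Real.norm_eq_abs] at hp1
  rw [abs_of_nonneg (by positivity), abs_of_nonneg (by linarith : (0 : ℝ) ≤ u)] at hp1
  have hX : 8 * C * (6 * (Real.log u + D) + 4 * (Real.log u + D) ^ 2) ≤ u / 4 := by
    have g1 : Real.log u + D ≤ (1 + D) * Real.log u := by nlinarith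
    have g0 : 0 ≤ Real.log u + D := by linarith
    have g2 : (Real.log u + D) ^ 2 ≤ ((1 + D) * Real.log u) ^ 2 := pow_le_pow_left₀ g0 g1 2
    have g3 : (1 + D) * Real.log u ≤ ((1 + D) * Real.log u) ^ 2 := by
      refine le_self_pow₀ ?_ (by norm_num)
      nlinarith
    have g4 : 6 * (Real.log u + D) + 4 * (Real.log u + D) ^ 2 ≤ 10 * ((1 + D) * Real.log u) ^ 2 := by
      linarith
    calc 8 * C * (6 * (Real.log u + D) + 4 * (Real.log u + D) ^ 2)
        ≤ 8 * C * (10 * ((1 + D) * Real.log u) ^ 2) := mul_le_mul_of_nonneg_left g4 (by positivity)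
      _ = B * Real.log u ^ 2 := by rw [hB]; ring
      _ ≤ B * (1 / (4 * B) * u) := mul_le_mul_of_nonneg_left hp1 hB0.le
      _ = u / 4 := by field_simp
  have e1 : 4 * C * K / Real.exp (u / 2) =
      1 / 4 * (16 * C * K * Real.exp (-(u / 4))) * Real.exp (-(u / 4)) := by
    have : Real.exp (u / 2) = Real.exp (u / 4) * Real.exp (u / 4) := by
      rw [← Real.exp_add]; congr 1; ring
    rw [this, Real.exp_neg]
    field_simp
    ring
  rw [e1]
  calc 1 / 4 * (16 * C * K * Real.exp (-(u / 4))) * Real.exp (-(u / 4))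
      ≤ 1 / 4 * 1 * Real.exp (-(u / 4)) := by
        refine mul_le_mul_of_nonneg_right ?_ (Real.exp_pos _).le
        linarith
    _ = 1 / 4 * Real.exp (-(u / 4)) := by ring
    _ ≤ _ := mul_le_mul_of_nonneg_left (Real.exp_le_exp.2 (by linarith)) (by norm_num)

/-- **(UPT)** -/
theorem t_UPT (hTWO : S_TWO) : S_UPT := by
  intro C hC
  obtain ⟨K, hK0, hK⟩ := hTWO (2 * C) (by linarith)
  obtain ⟨D, hD0, hD⟩ := Pool.Agent.H42.OM.mert
  obtain ⟨p₀, hp3, hp0⟩ := p0 C K D hC hK0 hD0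
  set s : ℝ := Real.log (Real.log p₀) + D with hs
  set V : ℝ := 6 * s + 4 * s ^ 2 with hV
  set E : ℝ := Real.exp (-(8 * C * V)) with hE
  have hE0 : 0 < E := Real.exp_pos _
  have hC0 : (0 : ℝ) < C := by linarith
  set η : ℝ := E / (8 * C ^ 2) with hη
  have hη0 : 0 < η := by positivity
  have hηE : η ≤ E / 8 := by
    rw [hη]
    refine div_le_div_of_nonneg_left hE0.le (by norm_num) ?_
    nlinarith
  have hηE2 : C ^ 2 * η = E / 8 := by
    rw [hη]; field_simp
  have hll : Tendsto (fun y : ℕ => Real.log (Real.log (y : ℝ))) atTop atTop :=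
    Real.tendsto_log_atTop.comp (Real.tendsto_log_atTop.comp tendsto_natCast_atTop_atTop)
  obtain ⟨A, hA⟩ := eventually_atTop.1 (((hll.eventually
    (Pool.Agent.H42.OM.ev_t D (K * Real.sqrt C) η hη0)).and (Pool.Agent.H42.OM.ev_y η hη0)).and
      (hll.eventually (eventually_ge_atTop (C + p₀))))
  refine ⟨E / 2, by positivity, A, fun y k hy hk hkC φ hφ => ?_⟩
  obtain ⟨⟨⟨ht1, hta, hts, hM3, hMt, htb, htc, htd, hte⟩, hy1, hya, hyb, hyc, hyd⟩, htC⟩ := hA y hy
  set t : ℝ := Real.log (Real.log (y : ℝ)) with ht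
  set M : ℕ := ⌊t ^ 3⌋₊ with hM
  set L : ℕ := ⌊Real.sqrt t / 2⌋₊ with hL
  have ht0 : 0 < t := by linarith
  have hM1 : 1 ≤ M := by omega
  have hMr : (0 : ℝ) < M := by exact_mod_cast (by omega : 0 < M)
  have hMle : (M : ℝ) ≤ t ^ 3 := Nat.floor_le (by positivity)
  have ht37 : t ^ 3 ≤ t ^ 7 := pow_le_pow_right₀ ht1 (by norm_num)
  have hty : t ^ 7 ≤ y := hyc.trans hyd
  have hMy : M ≤ y := by
    have : (M : ℝ) ≤ y := by linarith
    exact_mod_cast this
  have hL1 : 1 ≤ L := by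
    rw [hL]
    exact Nat.le_floor (by push_cast; linarith)
  have hLle : (L : ℝ) ≤ Real.sqrt t / 2 := Nat.floor_le (by positivity)
  have hsq : Real.sqrt t ^ 2 = t := Real.sq_sqrt ht0.le
  have hk0 : (0 : ℝ) ≤ k := Nat.cast_nonneg k
  have hp0r : (0 : ℝ) ≤ p₀ := Nat.cast_nonneg p₀
  have ht13 : t ≤ t ^ 3 := le_self_pow₀ ht1 (by norm_num)
  have hpM : p₀ ≤ M := by
    rw [hM]
    exact Nat.le_floor (by linarith)
  have hlM : Real.log (Real.log M) ≤ 3 * Real.log t := by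
    have hM3' : (3 : ℝ) ≤ M := by exact_mod_cast hM3
    have h1 : 0 < Real.log M := Real.log_pos (by linarith)
    have h2 := Real.log_le_sub_one_of_pos h1
    have h3 : Real.log M ≤ Real.log (t ^ 3) := Real.log_le_log hMr hMle
    rw [Real.log_pow] at h3
    push_cast at h3
    linarith
  obtain ⟨hB, hS⟩ := hD M y hM3 hMy
  have hBt : t / 2 ≤ ∑ q ∈ prs M y, 1 / (q : ℝ) := by
    have : t - D - Real.log (Real.log M) ≤ ∑ q ∈ prs M y, 1 / (q : ℝ) := hB
    linarith
  have hBpos : 0 < ∑ q ∈ prs M y, 1 / (q : ℝ) := by linarith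
  have hSp : ∑ p ∈ prs 0 p₀, 1 / (p : ℝ) ≤ s := (hD p₀ p₀ hp3 le_rfl).2
  have hSp0 : 0 ≤ ∑ p ∈ prs 0 p₀, 1 / (p : ℝ) := sum_nonneg fun _ _ => by positivity
  have hs0 : 0 ≤ s := hSp0.trans hSp
  have hV0 : 0 ≤ V := by positivity
  have hunion : prs 0 p₀ ∪ prs p₀ M = prs 0 M := by
    unfold prs
    rw [← filter_union, Finset.Ioc_union_Ioc_eq_Ioc (Nat.zero_le _) hpM]
  have hdis : ∀ a b c : ℕ, Disjoint (prs a b) (prs b c) := by
    intro a b c
    unfold prs
    refine disjoint_filter_filter ?_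
    rw [disjoint_left]
    intro x ha hb
    rw [mem_Ioc] at ha hb
    omega
  have hk2 : (k : ℝ) ≤ 2 * C * ∑ q ∈ prs M y, 1 / (q : ℝ) := by
    calc (k : ℝ) ≤ C * t := hkC
      _ = 2 * C * (t / 2) := by ring
      _ ≤ _ := mul_le_mul_of_nonneg_left hBt (by positivity)
  have hH := hK (prs 0 p₀) (prs p₀ M) (prs M y) k (cap M L) V (hdis _ _ _)
    (by rw [hunion]; exact hdis _ _ _) hk hBpos hk2 (by
      intro q hq
      unfold prs at hq
      rw [mem_filter, mem_Ioc] at hq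
      refine ⟨hq.2, ?_, ?_⟩
      · have h1 : t ^ 3 < (q : ℝ) := by
          have h2 : t ^ 3 < (M : ℝ) + 1 := Nat.lt_floor_add_one _
          have h3 : (M : ℝ) + 1 ≤ q := by exact_mod_cast hq.1.1
          linarith
        have h4 : C * t ≤ t ^ 3 := by
          have h5 : C * t ≤ t * t := mul_le_mul_of_nonneg_right (by linarith) ht0.le
          have h6 : t * t ≤ t ^ 3 := by nlinarith [mul_pos ht0 ht0]
          linarith
        have h5 : (k : ℝ) ≤ q := by linarith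
        exact_mod_cast h5
      · unfold cap
        rw [if_neg (by omega)]) (by
      intro p hp
      unfold prs at hp
      exact (mem_filter.1 hp).2) (by
      have h1 : (∑ p ∈ prs 0 p₀, 1 / (p : ℝ)) ^ 2 ≤ s ^ 2 := pow_le_pow_left₀ hSp0 hSp 2
      rw [hV]
      linarith) (by
      intro p hp
      unfold prs at hp
      rw [mem_filter, mem_Ioc] at hp
      have h1 : cap M L p = L := by
        unfold cap
        rw [if_pos hp.1.2]
      rw [h1]
      refine ⟨hp.2, hL1, ?_⟩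
      have h2 : (L : ℝ) ^ 2 ≤ (Real.sqrt t / 2) ^ 2 := pow_le_pow_left₀ (Nat.cast_nonneg _) hLle 2
      have h3 : (Real.sqrt t / 2) ^ 2 = t / 4 := by rw [div_pow, hsq]; norm_num
      linarith) φ hφ
  rw [hunion] at hH
  have hT0 : 2 - Real.exp (-(4 * k * V) / ∑ q ∈ prs M y, 1 / (q : ℝ)) ≤ 2 - E := by
    have h1 : E ≤ Real.exp (-(4 * k * V) / ∑ q ∈ prs M y, 1 / (q : ℝ)) := by
      rw [hE]
      refine Real.exp_le_exp.2 ?_
      rw [neg_div, neg_le_neg_iff, div_le_iff₀ hBpos]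
      calc 4 * k * V ≤ 4 * (2 * C * ∑ q ∈ prs M y, 1 / (q : ℝ)) * V :=
            mul_le_mul_of_nonneg_right (mul_le_mul_of_nonneg_left hk2 (by norm_num)) hV0
        _ = _ := by ring
    linarith
  have hT1 : 6 * ∑ q ∈ prs M y, ((k : ℝ) / q) ^ 2 ≤ E / 8 := by
    have h1 := Pool.Agent.H42.OM.sqs M y k hM1 hMy
    have h2 : (k : ℝ) ^ 2 / M ≤ C ^ 2 * (2 / t) := by
      rw [mul_div_assoc', div_le_div_iff₀ hMr ht0]
      have h3 : (k : ℝ) ^ 2 ≤ (C * t) ^ 2 := pow_le_pow_left₀ hk0 hkC 2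
      have h4 : (k : ℝ) ^ 2 * t ≤ (C * t) ^ 2 * t := mul_le_mul_of_nonneg_right h3 ht0.le
      have h5 : C ^ 2 * 2 * (t ^ 3 / 2) ≤ C ^ 2 * 2 * M := mul_le_mul_of_nonneg_left hMt (by positivity)
      nlinarith
    have h4 : 6 * (C ^ 2 * (2 / t)) = C ^ 2 * (12 / t) := by ring
    have h5 : C ^ 2 * (12 / t) ≤ C ^ 2 * η := mul_le_mul_of_nonneg_left htc (by positivity)
    linarith
  have hT2 : K * (∑ p ∈ prs p₀ M, ((k : ℝ) / (p * Real.sqrt p) + Real.sqrt k / p)) /
      ∑ q ∈ prs M y, 1 / (q : ℝ) ≤ E / 4 + E / 8 := by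
    have h1 : ∑ p ∈ prs p₀ M, ((k : ℝ) / (p * Real.sqrt p) + Real.sqrt k / p) =
        k * ∑ p ∈ prs p₀ M, 1 / ((p : ℝ) * Real.sqrt p) +
          Real.sqrt k * ∑ p ∈ prs p₀ M, 1 / (p : ℝ) := by
      rw [mul_sum, mul_sum, ← sum_add_distrib]
      exact sum_congr rfl fun p _ => by ring
    have hS' : ∑ p ∈ prs p₀ M, 1 / (p : ℝ) ≤ 3 * Real.log t + D := by
      have h2 : ∑ p ∈ prs p₀ M, 1 / (p : ℝ) ≤ ∑ p ∈ prs 0 M, 1 / (p : ℝ) := by
        rw [← hunion]
        exact sum_le_sum_of_subset_of_nonneg subset_union_right fun _ _ _ => by positivity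
      linarith
    have hS0 : 0 ≤ ∑ p ∈ prs p₀ M, 1 / (p : ℝ) := sum_nonneg fun _ _ => by positivity
    have htl : ∑ p ∈ prs p₀ M, 1 / ((p : ℝ) * Real.sqrt p) ≤ 2 / Real.sqrt p₀ := by
      calc ∑ p ∈ prs p₀ M, 1 / ((p : ℝ) * Real.sqrt p)
          ≤ ∑ p ∈ Ioc p₀ M, 1 / ((p : ℝ) * Real.sqrt p) :=
            sum_le_sum_of_subset_of_nonneg (filter_subset _ _) fun _ _ _ => by positivity
        _ ≤ 2 / Real.sqrt p₀ - 2 / Real.sqrt M := tail32 (by omega) M hpM
        _ ≤ _ := by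
            have : 0 ≤ 2 / Real.sqrt (M : ℝ) := by positivity
            linarith
    have hsk : Real.sqrt k ≤ Real.sqrt C * Real.sqrt t := by
      rw [← Real.sqrt_mul hC0.le]
      exact Real.sqrt_le_sqrt hkC
    have h3t : 0 ≤ 3 * Real.log t + D := hS0.trans hS'
    have h2 : ∑ p ∈ prs p₀ M, ((k : ℝ) / (p * Real.sqrt p) + Real.sqrt k / p) ≤
        C * t * (2 / Real.sqrt p₀) + Real.sqrt C * Real.sqrt t * (3 * Real.log t + D) := by
      rw [h1]
      refine add_le_add ?_ ?_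
      · exact mul_le_mul hkC htl (sum_nonneg fun _ _ => by positivity) (by positivity)
      · exact mul_le_mul hsk hS' hS0 (by positivity)
    have h3 : 0 ≤ C * t * (2 / Real.sqrt p₀) + Real.sqrt C * Real.sqrt t * (3 * Real.log t + D) := by
      positivity
    calc K * (∑ p ∈ prs p₀ M, ((k : ℝ) / (p * Real.sqrt p) + Real.sqrt k / p)) /
          ∑ q ∈ prs M y, 1 / (q : ℝ)
        ≤ K * (C * t * (2 / Real.sqrt p₀) + Real.sqrt C * Real.sqrt t * (3 * Real.log t + D)) /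
            (t / 2) :=
          div_le_div₀ (mul_nonneg hK0 h3) (mul_le_mul_of_nonneg_left h2 hK0) (by linarith) hBt
      _ = 4 * C * K / Real.sqrt p₀ +
            2 * (K * Real.sqrt C) * ((3 * Real.log t + D) / Real.sqrt t) := by
          have h5 : Real.sqrt t ≠ 0 := (Real.sqrt_pos.2 ht0).ne'
          have h6 : Real.sqrt t / t = 1 / Real.sqrt t := by
            rw [div_eq_div_iff ht0.ne' h5, one_mul, ← sq, hsq]
          have h7 : K * (C * t * (2 / Real.sqrt p₀) +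
              Real.sqrt C * Real.sqrt t * (3 * Real.log t + D)) / (t / 2) =
              4 * C * K / Real.sqrt p₀ * (t / t) +
                2 * (K * Real.sqrt C) * (3 * Real.log t + D) * (Real.sqrt t / t) := by
            ring
          rw [h7, h6, div_self ht0.ne']
          ring
      _ ≤ 1 / 4 * E + η := add_le_add hp0 htd
      _ ≤ _ := by linarith
  have h8 := hH.trans (add_le_add (add_le_add hT0 hT1) hT2)
  linarith

end Pool.Agent.H11.OM
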